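import Pool.Agent.Q231.RC.Hull

/-!
# The rank-one convex hull can be larger than the iterated `T₄` hull

Upper triangular `2 × 2` matrices are points `(x, y, z)`, with diagonal `x`, `y` and upper right
entry `z`.
-/

namespace Pool.Agent.Results.MP_400093_an.HullLarger

open Q231.RC

/-- For the six point set
`six = {(1,2,0), (4,1,0), (6,4,0), (3,3,1), (5,5,0), (2,6,0)}` the point `(2, 2, 6/161)` is in the
rank-one convex hull, but in none of the sets `K^(i)` of the iteration with `T₄` configurations and
rank-one segments; it is not even obtained by iterating the rank-one convex hulls of arbitrary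
subsets with at most five points. In particular there is a finite set whose rank-one convex hull is
not its `T₄`-convex hull. -/
theorem result :
    (∃ K : Set Pt, K.Finite ∧ hull K ≠ hullT4 K) ∧
    ((2, 2, 6 / 161) : Pt) ∈ hull six ∧ (∀ i, ((2, 2, 6 / 161) : Pt) ∉ iterT4 six i) ∧
    ∀ i, ((2, 2, 6 / 161) : Pt) ∉ iter5 six i := by
  have h5 : ∀ i, ((2, 2, 6 / 161) : Pt) ∉ iter5 six i := by
    intro i hi
    rw [← range_E] at hi
    exact top_not_mem (iter5_sub i hi)
  have h4 : ∀ i, ((2, 2, 6 / 161) : Pt) ∉ iterT4 six i := fun i hi =>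
    h5 i (iterT4_sub_iter5 six i hi)
  have ht : ((2, 2, 6 / 161) : Pt) ∈ hull six := by
    rw [← range_E]
    exact top_mem_hull
  refine ⟨⟨six, ?_, ?_⟩, ht, h4, h5⟩
  · rw [← range_E]
    exact Set.finite_range E
  · intro h
    rw [h] at ht
    obtain ⟨i, hi⟩ := Set.mem_iUnion.1 ht
    exact h4 i hi

end Pool.Agent.Results.MP_400093_an.HullLarger
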